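import Mathlib

/-!
# Quasi-sunflowers (Rossman), elementary proof by the second moment and independent repetition

If `H` is a family of `a`-sets with at least `B ^ a` members such that at most `B ^ (a - |S|)` members contain
a given nonempty set `S`, and `B ≥ 4 w L`, `w ≥ a`, then at most the fraction `2 ^ (-L)` of all sets `R`
contain no member of `H`.
-/

set_option autoImplicit false

namespace MTQ

open Finset

namespace QuasiAux

variable {X : Type*} [Fintype X] [DecidableEq X]

theorem card_zero_on (K : ℕ) [NeZero K] (h : Finset X) :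
    ((univ : Finset (X → Fin K)).filter (fun f => ∀ v ∈ h, f v = 0)).card * K ^ h.card =
      K ^ Fintype.card X := by
  classical
  have e : (univ : Finset (X → Fin K)).filter (fun f => ∀ v ∈ h, f v = 0) =
      Fintype.piFinset (fun v => if v ∈ h then ({0} : Finset (Fin K)) else univ) := by
    ext f
    simp only [mem_filter, mem_univ, true_and, Fintype.mem_piFinset]
    constructor
    · intro hf v
      by_cases hv : v ∈ h
      · simp [hv, hf v hv]
      · simp [hv]
    · intro hf v hv
      have := hf v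
      simpa [hv] using this
  rw [e, Fintype.card_piFinset]
  have e2 : ∀ v : X, (if v ∈ h then ({0} : Finset (Fin K)) else univ).card =
      if v ∈ h then 1 else K := by
    intro v
    by_cases hv : v ∈ h <;> simp [hv]
  simp only [e2]
  rw [prod_ite, prod_const_one, one_mul, prod_const, ← pow_add]
  congr 1
  have h1 : (univ.filter (fun v => v ∉ h)).card + (univ.filter (fun v => v ∈ h)).card =
      Fintype.card X := by
    rw [add_comm, Finset.card_filter_add_card_filter_not, card_univ]
  have h2 : univ.filter (fun v => v ∈ h) = h := by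
    ext v; simp
  rw [h2] at h1
  exact h1

/-- the number of members on which `f` vanishes -/
def cnt (H : Finset (Finset X)) {K : ℕ} [NeZero K] (f : X → Fin K) : ℕ :=
  (H.filter (fun h => ∀ v ∈ h, f v = 0)).card

theorem sum_cnt (H : Finset (Finset X)) (a K : ℕ) [NeZero K] (hc : ∀ h ∈ H, h.card = a) :
    (∑ f : X → Fin K, cnt H f) * K ^ a = H.card * K ^ Fintype.card X := by
  classical
  have e : ∑ f : X → Fin K, cnt H f =
      ∑ h ∈ H, ((univ : Finset (X → Fin K)).filter (fun f => ∀ v ∈ h, f v = 0)).card := by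
    unfold cnt
    simp only [card_filter]
    rw [sum_comm]
  rw [e, sum_mul]
  rw [Finset.sum_congr rfl (fun h hh => ?_), sum_const, smul_eq_mul]
  rw [← hc h hh]
  exact card_zero_on K h

theorem sum_cnt_sq (H : Finset (Finset X)) (a K : ℕ) [NeZero K] (hc : ∀ h ∈ H, h.card = a) :
    (∑ f : X → Fin K, cnt H f ^ 2) * K ^ (2 * a) =
      K ^ Fintype.card X * ∑ h ∈ H, ∑ h' ∈ H, K ^ (h ∩ h').card := by
  classical
  have e : ∑ f : X → Fin K, cnt H f ^ 2 =
      ∑ h ∈ H, ∑ h' ∈ H,
        ((univ : Finset (X → Fin K)).filter (fun f => ∀ v ∈ h ∪ h', f v = 0)).card := by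
    have e1 : ∀ f : X → Fin K, cnt H f ^ 2 =
        ∑ h ∈ H, ∑ h' ∈ H, if (∀ v ∈ h ∪ h', f v = 0) then 1 else 0 := by
      intro f
      unfold cnt
      rw [card_filter, sq, sum_mul_sum]
      refine sum_congr rfl fun h _ => sum_congr rfl fun h' _ => ?_
      by_cases h1 : ∀ v ∈ h, f v = 0
      · by_cases h2 : ∀ v ∈ h', f v = 0
        · have h3 : ∀ v ∈ h ∪ h', f v = 0 := by
            intro v hv
            rcases mem_union.mp hv with hv | hv
            · exact h1 v hv
            · exact h2 v hv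
          rw [if_pos h1, if_pos h2, if_pos h3, mul_one]
        · have h3 : ¬ ∀ v ∈ h ∪ h', f v = 0 := by
            intro h3
            exact h2 fun v hv => h3 v (mem_union_right _ hv)
          rw [if_pos h1, if_neg h2, if_neg h3, mul_zero]
      · have h3 : ¬ ∀ v ∈ h ∪ h', f v = 0 := by
          intro h3
          exact h1 fun v hv => h3 v (mem_union_left _ hv)
        rw [if_neg h1, if_neg h3, zero_mul]
    simp only [e1]
    rw [sum_comm]
    refine sum_congr rfl fun h _ => ?_
    rw [sum_comm]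
    refine sum_congr rfl fun h' _ => ?_
    rw [card_filter]
  rw [e, sum_mul, mul_sum]
  refine sum_congr rfl fun h hh => ?_
  rw [sum_mul, mul_sum]
  refine sum_congr rfl fun h' hh' => ?_
  have h1 : 2 * a = (h ∪ h').card + (h ∩ h').card := by
    rw [card_union_add_card_inter, hc h hh, hc h' hh']; ring
  rw [h1, pow_add, ← mul_assoc, card_zero_on K (h ∪ h')]

omit [Fintype X] in
theorem inner_sum (H : Finset (Finset X)) (a w L B K : ℕ) (hK : K = 2 * L) (haw : a ≤ w)
    (hw : 1 ≤ w) (hL : 1 ≤ L) (hB : 4 * w * L ≤ B) (hc : ∀ h ∈ H, h.card = a)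
    (hS : ∀ S : Finset X, S.Nonempty → (H.filter (fun h => S ⊆ h)).card ≤ B ^ (a - S.card))
    (hbig : B ^ a ≤ H.card) (h : Finset X) (hh : h ∈ H) :
    ∑ h' ∈ H, (K : ℝ) ^ (h ∩ h').card ≤ 2 * H.card := by
  classical
  subst hK
  have hBpos : (0 : ℝ) < B := by
    have : 0 < B := by
      have : 0 < 4 * w * L := by positivity
      omega
    exact_mod_cast this
  set x : ℝ := ((2 * L : ℕ) : ℝ) - 1 with hx
  have hx0 : 0 ≤ x := by
    rw [hx]
    have : (1 : ℝ) ≤ ((2 * L : ℕ) : ℝ) := by
      have : 1 ≤ 2 * L := by omega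
      exact_mod_cast this
    linarith
  -- expand
  have e1 : ∀ h' : Finset X, ((2 * L : ℕ) : ℝ) ^ (h ∩ h').card =
      ∑ S ∈ h.powerset, if S ⊆ h' then x ^ S.card else 0 := by
    intro h'
    have e2 := Finset.sum_pow_mul_eq_add_pow x (1 : ℝ) (h ∩ h')
    rw [show x + 1 = ((2 * L : ℕ) : ℝ) by rw [hx]; ring] at e2
    rw [← e2, ← sum_filter]
    refine sum_congr ?_ (fun S _ => by rw [one_pow, mul_one])
    ext S
    simp only [mem_powerset, mem_filter, subset_inter_iff]
  simp only [e1]
  rw [sum_comm]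
  have e3 : ∀ S ∈ h.powerset, ∑ h' ∈ H, (if S ⊆ h' then x ^ S.card else 0) ≤
      H.card * (x / B) ^ S.card := by
    intro S hSm
    rw [← sum_filter, sum_const, nsmul_eq_mul, div_pow, ← mul_div_assoc, le_div_iff₀ (by positivity)]
    have hSh : S.card ≤ a := by
      rw [← hc h hh]; exact card_le_card (mem_powerset.mp hSm)
    have key : ((H.filter (fun h => S ⊆ h)).card : ℝ) * B ^ S.card ≤ H.card := by
      rcases S.eq_empty_or_nonempty with rfl | hne
      · simp
      · have h1 := hS S hne
        have h2 : (H.filter (fun h => S ⊆ h)).card * B ^ S.card ≤ H.card := by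
          calc (H.filter (fun h => S ⊆ h)).card * B ^ S.card
              ≤ B ^ (a - S.card) * B ^ S.card := Nat.mul_le_mul_right _ h1
            _ = B ^ a := by rw [← pow_add, Nat.sub_add_cancel hSh]
            _ ≤ H.card := hbig
        exact_mod_cast h2
    calc ((H.filter (fun h => S ⊆ h)).card : ℝ) * x ^ S.card * B ^ S.card
        = ((H.filter (fun h => S ⊆ h)).card : ℝ) * B ^ S.card * x ^ S.card := by ring
      _ ≤ H.card * x ^ S.card := mul_le_mul_of_nonneg_right key (by positivity)
  refine (sum_le_sum e3).trans ?_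
  rw [← mul_sum]
  have e4 : ∑ S ∈ h.powerset, (x / B) ^ S.card = (x / B + 1) ^ h.card := by
    rw [← Finset.sum_pow_mul_eq_add_pow (x / B) (1 : ℝ) h]
    refine sum_congr rfl fun S _ => by rw [one_pow, mul_one]
  rw [e4, hc h hh, mul_comm]
  refine mul_le_mul_of_nonneg_right ?_ (by positivity)
  have h5 : (x / B + 1) ^ a ≤ Real.exp (a * (x / B)) := by
    rw [Real.exp_nat_mul]
    refine pow_le_pow_left₀ (by positivity) (Real.add_one_le_exp _) a
  have h6 : (a : ℝ) * (x / B) ≤ 1 / 2 := by
    rw [← mul_div_assoc, div_le_iff₀ hBpos]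
    have h7 : ((4 * w * L : ℕ) : ℝ) ≤ B := by exact_mod_cast hB
    have h8 : (a : ℝ) ≤ w := by exact_mod_cast haw
    have h9 : x ≤ 2 * L := by rw [hx]; push_cast; linarith
    push_cast at h7
    have h10 : (a : ℝ) * x ≤ w * (2 * L) := mul_le_mul h8 h9 hx0 (by positivity)
    nlinarith
  have h7 : Real.exp (1 / 2) ≤ 2 := by
    have h8 : Real.exp 1 < 2.7182818286 := Real.exp_one_lt_d9
    have h9 : Real.exp (1 / 2) * Real.exp (1 / 2) = Real.exp 1 := by
      rw [← Real.exp_add]; norm_num
    have h10 : 0 < Real.exp (1 / 2) := Real.exp_pos _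
    nlinarith
  exact h5.trans ((Real.exp_le_exp.mpr h6).trans h7)

theorem half (H : Finset (Finset X)) (a w L B K : ℕ) [NeZero K] (hK : K = 2 * L) (ha : 1 ≤ a)
    (haw : a ≤ w) (hL : 1 ≤ L) (hB : 4 * w * L ≤ B) (hc : ∀ h ∈ H, h.card = a)
    (hS : ∀ S : Finset X, S.Nonempty → (H.filter (fun h => S ⊆ h)).card ≤ B ^ (a - S.card))
    (hbig : B ^ a ≤ H.card) :
    2 * ((univ : Finset (X → Fin K)).filter (fun f => cnt H f = 0)).card ≤
      K ^ Fintype.card X := by
  set n := Fintype.card X with hn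
  have hKpos : (0 : ℝ) < K := by
    have : 0 < K := by omega
    exact_mod_cast this
  have hHpos : (0 : ℝ) < H.card := by
    have h1 : 0 < B ^ a := by
      have : 0 < 4 * w * L := by
        have : 0 < w := by omega
        positivity
      have : 0 < B := by omega
      positivity
    have : 0 < H.card := by omega
    exact_mod_cast this
  set P := (univ : Finset (X → Fin K)).filter (fun f => cnt H f ≠ 0) with hP
  -- first and second moments
  have m1 : (∑ f : X → Fin K, (cnt H f : ℝ)) * (K : ℝ) ^ a = H.card * (K : ℝ) ^ n := by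
    have := sum_cnt H a K hc
    exact_mod_cast this
  have m2 : (∑ f : X → Fin K, (cnt H f : ℝ) ^ 2) * (K : ℝ) ^ (2 * a) =
      (K : ℝ) ^ n * ∑ h ∈ H, ∑ h' ∈ H, (K : ℝ) ^ (h ∩ h').card := by
    have := sum_cnt_sq H a K hc
    exact_mod_cast this
  have m3 : ∑ h ∈ H, ∑ h' ∈ H, (K : ℝ) ^ (h ∩ h').card ≤ 2 * (H.card : ℝ) ^ 2 := by
    calc ∑ h ∈ H, ∑ h' ∈ H, (K : ℝ) ^ (h ∩ h').card
        ≤ ∑ h ∈ H, 2 * (H.card : ℝ) := by
          refine sum_le_sum fun h hh => ?_
          exact inner_sum H a w L B K hK haw (ha.trans haw) hL hB hc hS hbig h hh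
      _ = 2 * (H.card : ℝ) ^ 2 := by rw [sum_const, nsmul_eq_mul]; ring
  -- Cauchy-Schwarz
  have cs : (∑ f : X → Fin K, (cnt H f : ℝ)) ^ 2 ≤ P.card * ∑ f : X → Fin K, (cnt H f : ℝ) ^ 2 := by
    have e1 : ∑ f : X → Fin K, (cnt H f : ℝ) = ∑ f ∈ P, (cnt H f : ℝ) := by
      rw [hP, sum_filter]
      refine sum_congr rfl fun f _ => ?_
      by_cases h0 : cnt H f = 0
      · simp [h0]
      · simp [h0]
    rw [e1]
    refine (sq_sum_le_card_mul_sum_sq (s := P) (f := fun f => (cnt H f : ℝ))).trans ?_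
    refine mul_le_mul_of_nonneg_left ?_ (by positivity)
    exact sum_le_sum_of_subset_of_nonneg (filter_subset _ _) (fun f _ _ => by positivity)
  have hmain : (K : ℝ) ^ n ≤ 2 * P.card := by
    set A := ∑ f : X → Fin K, (cnt H f : ℝ)
    set C := ∑ f : X → Fin K, (cnt H f : ℝ) ^ 2
    have h1 : (H.card * (K : ℝ) ^ n) ^ 2 ≤ P.card * ((K : ℝ) ^ n * (2 * (H.card : ℝ) ^ 2)) := by
      calc (H.card * (K : ℝ) ^ n) ^ 2 = A ^ 2 * (K : ℝ) ^ (2 * a) := by
            rw [← m1, mul_pow, ← pow_mul, mul_comm a 2]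
        _ ≤ (P.card * C) * (K : ℝ) ^ (2 * a) := mul_le_mul_of_nonneg_right cs (by positivity)
        _ = P.card * (C * (K : ℝ) ^ (2 * a)) := by ring
        _ = P.card * ((K : ℝ) ^ n * ∑ h ∈ H, ∑ h' ∈ H, (K : ℝ) ^ (h ∩ h').card) := by rw [m2]
        _ ≤ P.card * ((K : ℝ) ^ n * (2 * (H.card : ℝ) ^ 2)) := by
            refine mul_le_mul_of_nonneg_left ?_ (by positivity)
            exact mul_le_mul_of_nonneg_left m3 (by positivity)
    have h2 : (0 : ℝ) < (H.card : ℝ) ^ 2 * (K : ℝ) ^ n := by positivity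
    have h3 : ((H.card : ℝ) ^ 2 * (K : ℝ) ^ n) * (K : ℝ) ^ n ≤
        ((H.card : ℝ) ^ 2 * (K : ℝ) ^ n) * (2 * P.card) := by
      calc ((H.card : ℝ) ^ 2 * (K : ℝ) ^ n) * (K : ℝ) ^ n = (H.card * (K : ℝ) ^ n) ^ 2 := by ring
        _ ≤ P.card * ((K : ℝ) ^ n * (2 * (H.card : ℝ) ^ 2)) := h1
        _ = ((H.card : ℝ) ^ 2 * (K : ℝ) ^ n) * (2 * P.card) := by ring
    exact le_of_mul_le_mul_left h3 h2
  have hmain' : K ^ n ≤ 2 * P.card := by exact_mod_cast hmain
  have htot : ((univ : Finset (X → Fin K)).filter (fun f => cnt H f = 0)).card + P.card = K ^ n := by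
    rw [hP, Finset.card_filter_add_card_filter_not, card_univ, Fintype.card_fun, Fintype.card_fin]
  omega

/-- a half set of the labels which contains the labels with a coordinate `0` -/
theorem exists_half (L K : ℕ) [NeZero K] (hK : K = 2 * L) (hL : 1 ≤ L) :
    ∃ A : Finset (Fin L → Fin K), (∀ q : Fin L → Fin K, (∃ i, q i = 0) → q ∈ A) ∧
      2 * A.card = K ^ L := by
  set S0 := (univ : Finset (Fin L → Fin K)).filter (fun q => ∃ i, q i = 0) with hS0
  have hcomp : ((univ : Finset (Fin L → Fin K)).filter (fun q => ¬ ∃ i, q i = 0)).card =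
      (K - 1) ^ L := by
    have e : (univ : Finset (Fin L → Fin K)).filter (fun q => ¬ ∃ i, q i = 0) =
        Fintype.piFinset (fun _ => (univ.erase (0 : Fin K))) := by
      ext q
      simp only [mem_filter, mem_univ, true_and, Fintype.mem_piFinset, not_exists, mem_erase, ne_eq,
        and_true]
    rw [e, Fintype.card_piFinset]
    simp
  have hsum : S0.card + (K - 1) ^ L = K ^ L := by
    rw [← hcomp, hS0, Finset.card_filter_add_card_filter_not, card_univ, Fintype.card_fun,
      Fintype.card_fin, Fintype.card_fin]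
  have hbern : K ^ L ≤ 2 * (K - 1) ^ L := by
    have h1 : (1 : ℝ) + (L : ℝ) * (-(1 / (K : ℝ))) ≤ (1 + -(1 / (K : ℝ))) ^ L := by
      refine one_add_mul_le_pow ?_ L
      have : (1 : ℝ) ≤ K := by
        have : 1 ≤ K := by omega
        exact_mod_cast this
      have : 1 / (K : ℝ) ≤ 1 := by rw [div_le_one (by linarith)]; exact this
      linarith
    have hKpos : (0 : ℝ) < K := by
      have : 0 < K := by omega
      exact_mod_cast this
    have h2 : (1 : ℝ) + (L : ℝ) * (-(1 / (K : ℝ))) = 1 / 2 := by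
      have : (K : ℝ) = 2 * L := by rw [hK]; push_cast; ring
      rw [this]
      have hLpos : (0 : ℝ) < L := by exact_mod_cast hL
      field_simp
      ring
    rw [h2] at h1
    have h3 : (K : ℝ) ^ L ≤ 2 * ((K : ℝ) - 1) ^ L := by
      have h4 : ((K : ℝ) - 1) ^ L = (K : ℝ) ^ L * (1 + -(1 / (K : ℝ))) ^ L := by
        rw [← mul_pow]
        congr 1
        field_simp
        ring
      rw [h4]
      have h5 : (0 : ℝ) < (K : ℝ) ^ L := by positivity
      nlinarith
    have h6 : ((K - 1 : ℕ) : ℝ) = (K : ℝ) - 1 := by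
      rw [Nat.cast_sub (by omega)]; simp
    rw [← h6] at h3
    exact_mod_cast h3
  have heven : 2 * (K ^ L / 2) = K ^ L := by
    refine Nat.mul_div_cancel' ?_
    exact dvd_pow (by rw [hK]; exact dvd_mul_right 2 L) (by omega)
  obtain ⟨A, hA1, _, hA3⟩ := Finset.exists_subsuperset_card_eq (s := S0) (t := univ)
    (n := K ^ L / 2) (subset_univ _) (by omega)
    (by rw [card_univ, Fintype.card_fun, Fintype.card_fin, Fintype.card_fin]; omega)
  refine ⟨A, fun q hq => hA1 ?_, by omega⟩
  rw [hS0, mem_filter]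
  exact ⟨mem_univ _, hq⟩

/-- the fibres of the coupling -/
theorem fibre {Q : Type*} [Fintype Q] [DecidableEq Q] (A : Finset Q) (m : ℕ) (hA : A.card = m)
    (hAc : Aᶜ.card = m) (R : Finset X) :
    ((univ : Finset (X → Q)).filter (fun f => univ.filter (fun v => f v ∈ A) = R)).card =
      m ^ Fintype.card X := by
  classical
  have e : (univ : Finset (X → Q)).filter (fun f => univ.filter (fun v => f v ∈ A) = R) =
      Fintype.piFinset (fun v => if v ∈ R then A else Aᶜ) := by
    ext f
    simp only [mem_filter, mem_univ, true_and, Fintype.mem_piFinset]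
    constructor
    · intro hf v
      by_cases hv : v ∈ R
      · rw [if_pos hv]
        rw [← hf] at hv
        exact (mem_filter.mp hv).2
      · rw [if_neg hv, mem_compl]
        intro h
        apply hv
        rw [← hf, mem_filter]
        exact ⟨mem_univ _, h⟩
    · intro hf
      ext v
      rw [mem_filter]
      have := hf v
      by_cases hv : v ∈ R
      · rw [if_pos hv] at this
        exact ⟨fun _ => hv, fun _ => ⟨mem_univ _, this⟩⟩
      · rw [if_neg hv, mem_compl] at this
        exact ⟨fun h => absurd h.2 this, fun h => absurd h hv⟩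
  rw [e, Fintype.card_piFinset]
  have e2 : ∀ v : X, (if v ∈ R then A else Aᶜ).card = m := by
    intro v
    by_cases hv : v ∈ R
    · rw [if_pos hv, hA]
    · rw [if_neg hv, hAc]
  simp only [e2]
  rw [prod_const, card_univ]

end QuasiAux

open QuasiAux

/-- Quasi-sunflower lemma. -/
theorem quasi {X : Type*} [Fintype X] [DecidableEq X] (H : Finset (Finset X)) (a w L B : ℕ)
    (ha : 1 ≤ a) (haw : a ≤ w) (hL : 1 ≤ L) (hB : 4 * w * L ≤ B) (hc : ∀ h ∈ H, h.card = a)
    (hS : ∀ S : Finset X, S.Nonempty → (H.filter (fun h => S ⊆ h)).card ≤ B ^ (a - S.card))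
    (hbig : B ^ a ≤ H.card) :
    2 ^ L * ((univ : Finset (Finset X)).filter (fun R => ∀ h ∈ H, ¬ h ⊆ R)).card ≤
      2 ^ Fintype.card X := by
  classical
  obtain ⟨K, hK⟩ : ∃ K, K = 2 * L := ⟨_, rfl⟩
  have : NeZero K := ⟨by omega⟩
  obtain ⟨A, hA0, hA⟩ := exists_half L K hK hL
  set n := Fintype.card X with hn
  have hcardQ : Fintype.card (Fin L → Fin K) = K ^ L := by
    rw [Fintype.card_fun, Fintype.card_fin, Fintype.card_fin]
  set m := A.card with hm
  have hAc : Aᶜ.card = m := by
    rw [card_compl, hcardQ]; omega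
  have hmpos : 0 < m := by
    have hK0 : 0 < K := by omega
    have : 0 < K ^ L := Nat.pow_pos hK0
    omega
  set 𝒜 := (univ : Finset (Finset X)).filter (fun R => ∀ h ∈ H, ¬ h ⊆ R) with h𝒜
  set Z := (univ : Finset (X → Fin K)).filter (fun f => cnt H f = 0) with hZ
  have hZc : 2 * Z.card ≤ K ^ n := half H a w L B K hK ha haw hL hB hc hS hbig
  -- the coupling
  set Φ : (X → (Fin L → Fin K)) → Finset X := fun f => univ.filter (fun v => f v ∈ A) with hΦ
  have h1 : ((univ : Finset (X → (Fin L → Fin K))).filter (fun f => Φ f ∈ 𝒜)).card =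
      𝒜.card * m ^ n := by
    rw [card_eq_sum_card_fiberwise (f := Φ) (t := 𝒜) (fun f hf => by
      have := hf
      simp only [coe_filter, mem_univ, true_and, Set.mem_ofPred_eq] at this
      exact this)]
    rw [sum_congr rfl (fun R hR => ?_), sum_const, smul_eq_mul]
    have e : ((univ : Finset (X → (Fin L → Fin K))).filter (fun f => Φ f ∈ 𝒜)).filter
        (fun f => Φ f = R) = univ.filter (fun f => Φ f = R) := by
      ext f
      simp only [mem_filter, mem_univ, true_and]
      constructor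
      · exact fun h => h.2
      · exact fun h => ⟨by rw [h]; exact hR, h⟩
    rw [e]
    exact fibre A m hm.symm hAc R
  have h2 : ((univ : Finset (X → (Fin L → Fin K))).filter (fun f => Φ f ∈ 𝒜)).card ≤
      Z.card ^ L := by
    have e : Z.card ^ L = (Fintype.piFinset (fun _ : Fin L => Z)).card := by
      rw [Fintype.card_piFinset, prod_const, card_univ, Fintype.card_fin]
    rw [e]
    refine card_le_card_of_injOn (fun f => fun i v => f v i) ?_ ?_
    · intro f hf
      simp only [coe_filter, mem_univ, true_and, Set.mem_ofPred_eq] at hf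
      rw [mem_coe, Fintype.mem_piFinset]
      intro i
      rw [hZ, mem_filter]
      refine ⟨mem_univ _, ?_⟩
      unfold cnt
      rw [card_eq_zero, filter_eq_empty_iff]
      intro h hh hall
      rw [h𝒜, mem_filter] at hf
      apply hf.2 h hh
      intro v hv
      rw [hΦ]
      simp only [mem_filter, mem_univ, true_and]
      exact hA0 _ ⟨i, hall v hv⟩
    · intro f _ g _ hfg
      funext v i
      exact congrFun (congrFun hfg i) v
  have h3 : 2 ^ L * Z.card ^ L ≤ K ^ (n * L) := by
    rw [← mul_pow, pow_mul]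
    exact Nat.pow_le_pow_left hZc L
  have h4 : K ^ (n * L) = 2 ^ n * m ^ n := by
    rw [mul_comm n L, pow_mul, ← hA, mul_pow]
  have h5 : (2 ^ L * 𝒜.card) * m ^ n ≤ 2 ^ n * m ^ n := by
    calc (2 ^ L * 𝒜.card) * m ^ n = 2 ^ L * (𝒜.card * m ^ n) := by ring
      _ ≤ 2 ^ L * Z.card ^ L := by
          refine Nat.mul_le_mul_left _ ?_
          rw [← h1]; exact h2
      _ ≤ K ^ (n * L) := h3
      _ = 2 ^ n * m ^ n := h4
  exact Nat.le_of_mul_le_mul_right h5 (by positivity)

end MTQ
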