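import Pool.Agent.Lib.MTQ.Defs
import Pool.Agent.Lib.MTQ.Quasi

/-!
# MTQ.MinE (MP_e46137_lc, theorem B*): the number of minimal extensions in a closed family
-/

namespace MTQ

open Classical Finset

variable {V : Type*} [Fintype V]

/-- number of colourings which extend a partial colouring -/
theorem agree_card (U : PC V) :
    (univ.filter (fun χ : V → Bool => Agree U χ)).card * 2 ^ size U = 2 ^ Fintype.card V := by
  have e : (univ.filter (fun χ : V → Bool => Agree U χ)) =
      Fintype.piFinset (fun v => univ.filter (fun b : Bool => ∀ c, U v = some c → b = c)) := by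
    ext χ
    rw [mem_filter, Fintype.mem_piFinset]
    constructor
    · intro h v
      rw [mem_filter]
      exact ⟨mem_univ _, h.2 v⟩
    · intro h
      refine ⟨mem_univ _, fun v => ?_⟩
      exact (mem_filter.1 (h v)).2
  have e2 : ∀ v : V, (univ.filter (fun b : Bool => ∀ c, U v = some c → b = c)).card =
      if U v = none then 2 else 1 := by
    intro v
    rcases hv : U v with _ | c
    · rw [if_pos rfl, filter_true_of_mem]
      · rfl
      · intro b _ c hc
        exact absurd hc (by simp)
    · rw [if_neg (by simp)]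
      have : (univ.filter (fun b : Bool => ∀ c', (some c : Option Bool) = some c' → b = c')) =
          {c} := by
        ext b
        rw [mem_filter, mem_singleton]
        constructor
        · intro h
          exact h.2 c rfl
        · intro h
          refine ⟨mem_univ _, fun c' hc' => ?_⟩
          rw [h]
          exact Option.some.inj hc'
      rw [this, card_singleton]
  rw [e, Fintype.card_piFinset]
  simp only [e2]
  rw [prod_ite, prod_const_one, mul_one, prod_const, ← pow_add]
  congr 1
  unfold size
  have := Finset.card_filter_add_card_filter_not (s := (univ : Finset V)) (fun v => U v = none)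
  rw [card_univ] at this
  exact this

namespace MinEAux

/-- the restriction of a colouring to a set -/
noncomputable def restr (γ : V → Bool) (s : Finset V) : PC V := fun v => if v ∈ s then some (γ v) else none

/-- the coloured vertices -/
noncomputable def supp (A : PC V) : Finset V := univ.filter (fun v => A v ≠ none)

omit [Fintype V] in
theorem restr_some {γ : V → Bool} {s : Finset V} {v : V} {c : Bool} :
    restr γ s v = some c ↔ v ∈ s ∧ γ v = c := by
  unfold restr
  by_cases h : v ∈ s
  · simp [h]
  · simp [h]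

theorem restr_supp {A : PC V} {γ : V → Bool} (h : Agree A γ) : restr γ (supp A) = A := by
  funext v
  unfold restr supp
  rcases hv : A v with _ | c
  · simp [hv]
  · have := h v c hv
    simp [hv, this]

theorem supp_restr (γ : V → Bool) (s : Finset V) : supp (restr γ s) = s := by
  ext v
  unfold supp restr
  by_cases h : v ∈ s
  · simp [h]
  · simp [h]

theorem size_eq (A : PC V) : size A = (supp A).card := rfl

theorem size_join (D A : PC V) : size (join D A) ≤ size D + size A := by
  unfold size
  refine (card_le_card ?_).trans (card_union_le _ _)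
  intro v hv
  rw [mem_union, mem_filter, mem_filter]
  have h := (mem_filter.1 hv).2
  by_cases hD : D v = none
  · right
    refine ⟨mem_univ _, ?_⟩
    intro hA
    apply h
    simp [join, hD, hA]
  · exact Or.inl ⟨mem_univ _, hD⟩

/-- some colouring contains many members -/
theorem exists_col (𝒜 : Finset (PC V)) (a B₁ : ℕ) (hs : ∀ A ∈ 𝒜, size A = a)
    (h : (2 * B₁) ^ a < 𝒜.card) :
    ∃ γ : V → Bool, B₁ ^ a < (𝒜.filter (fun A => Agree A γ)).card := by
  by_contra hno
  push Not at hno
  have h1 : ∑ γ : V → Bool, (𝒜.filter (fun A => Agree A γ)).card =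
      ∑ A ∈ 𝒜, (univ.filter (fun γ : V → Bool => Agree A γ)).card := by
    simp only [card_filter]
    rw [sum_comm]
  have h2 : (∑ A ∈ 𝒜, (univ.filter (fun γ : V → Bool => Agree A γ)).card) * 2 ^ a =
      𝒜.card * 2 ^ Fintype.card V := by
    rw [sum_mul, sum_congr rfl (fun A hA => ?_), sum_const, smul_eq_mul]
    rw [← hs A hA]
    exact agree_card A
  have h3 : ∑ γ : V → Bool, (𝒜.filter (fun A => Agree A γ)).card ≤
      2 ^ Fintype.card V * B₁ ^ a := by
    refine (sum_le_sum fun γ _ => hno γ).trans ?_
    rw [sum_const, card_univ, smul_eq_mul, Fintype.card_fun, Fintype.card_bool]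
  have h4 : 𝒜.card * 2 ^ Fintype.card V ≤ (2 * B₁) ^ a * 2 ^ Fintype.card V := by
    rw [← h2, ← h1]
    calc (∑ γ : V → Bool, (𝒜.filter (fun A => Agree A γ)).card) * 2 ^ a
        ≤ (2 ^ Fintype.card V * B₁ ^ a) * 2 ^ a := Nat.mul_le_mul_right _ h3
      _ = (2 * B₁) ^ a * 2 ^ Fintype.card V := by rw [mul_pow]; ring
  have h5 := Nat.le_of_mul_le_mul_right h4 (by positivity)
  omega

end MinEAux

open MinEAux

/-- QS-lemma: in a closed family there are at most `(2 B₁) ^ a` minimal extensions of size `a` of a
partial colouring which is not a member. -/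
theorem minExt_card {w θ L a B₁ : ℕ} {F : Finset (PC V)} (hF : Closed w θ F)
    (hθ : 2 ^ Fintype.card V ≤ 2 ^ L * θ) (hL : 1 ≤ L) (hB : 4 * w * L ≤ B₁) {D : PC V}
    (hDa : size D + a ≤ w) :
    (univ.filter (fun A : PC V => MinExt F D A ∧ size A = a)).card ≤ (2 * B₁) ^ a := by
  set 𝒜 := univ.filter (fun A : PC V => MinExt F D A ∧ size A = a) with h𝒜
  by_contra hcon
  push Not at hcon
  obtain ⟨γ, hγ⟩ := exists_col 𝒜 a B₁ (fun A hA => (mem_filter.1 hA).2.2) hcon
  set ℬ := (𝒜.filter (fun A => Agree A γ)).image supp with hℬ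
  have hℬcard : B₁ ^ a < ℬ.card := by
    rw [hℬ, card_image_of_injOn]
    · exact hγ
    · intro A hA A' hA' hAA
      rw [mem_coe, mem_filter] at hA hA'
      have hAA' : supp A = supp A' := hAA
      rw [← restr_supp hA.2, hAA', restr_supp hA'.2]
  have hmem : ∀ s ∈ ℬ, s.card = a ∧ MinExt F D (restr γ s) := by
    intro s hs
    rw [hℬ, mem_image] at hs
    obtain ⟨A, hA, rfl⟩ := hs
    rw [mem_filter, h𝒜, mem_filter] at hA
    rw [restr_supp hA.2]
    exact ⟨hA.1.2.2, hA.1.2.1⟩
  -- the maximal kernel
  have hne : (univ.filter (fun Y : Finset V => B₁ ^ (a - Y.card) <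
      (ℬ.filter (fun s => Y ⊆ s)).card ∧ ∃ s ∈ ℬ, Y ⊆ s)).Nonempty := by
    refine ⟨∅, ?_⟩
    rw [mem_filter]
    have h1 : ℬ.filter (fun s => (∅ : Finset V) ⊆ s) = ℬ := by
      rw [filter_true_of_mem]
      intro s _
      exact empty_subset s
    refine ⟨mem_univ _, ?_, ?_⟩
    · rw [h1, card_empty, Nat.sub_zero]
      exact hℬcard
    · have h2 : 0 < ℬ.card := by omega
      obtain ⟨s, hs⟩ := card_pos.1 h2
      exact ⟨s, hs, empty_subset s⟩
  obtain ⟨Y, hY, hYmax⟩ := exists_max_image _ (fun Y : Finset V => Y.card) hne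
  rw [mem_filter] at hY
  obtain ⟨-, hYbig, s₀, hs₀, hYs₀⟩ := hY
  have hYa : Y.card < a := by
    have h1 : Y.card ≤ a := by
      rw [← (hmem s₀ hs₀).1]
      exact card_le_card hYs₀
    rcases Nat.lt_or_eq_of_le h1 with h | h
    · exact h
    · exfalso
      rw [h, Nat.sub_self, pow_zero] at hYbig
      have h2 : (ℬ.filter (fun s => Y ⊆ s)).card ≤ 1 := by
        rw [card_le_one]
        intro s hs s' hs'
        rw [mem_filter] at hs hs'
        have e1 := eq_of_subset_of_card_le hs.2 (by rw [(hmem s hs.1).1, h])
        have e2 := eq_of_subset_of_card_le hs'.2 (by rw [(hmem s' hs'.1).1, h])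
        rw [← e1, ← e2]
      omega
  -- the link
  set H := (ℬ.filter (fun s => Y ⊆ s)).image (fun s => s \ Y) with hH
  have hHcard : H.card = (ℬ.filter (fun s => Y ⊆ s)).card := by
    rw [hH, card_image_of_injOn]
    intro s hs s' hs' hss
    rw [mem_coe, mem_filter] at hs hs'
    have hss' : s \ Y = s' \ Y := hss
    rw [← sdiff_union_of_subset hs.2, hss', sdiff_union_of_subset hs'.2]
  have hHc : ∀ h ∈ H, h.card = a - Y.card := by
    intro h hh
    rw [hH, mem_image] at hh
    obtain ⟨s, hs, rfl⟩ := hh
    rw [mem_filter] at hs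
    rw [card_sdiff_of_subset hs.2, (hmem s hs.1).1]
  have hHS : ∀ Z : Finset V, Z.Nonempty →
      (H.filter (fun h => Z ⊆ h)).card ≤ B₁ ^ (a - Y.card - Z.card) := by
    intro Z hZ
    by_cases hex : ∃ h ∈ H, Z ⊆ h
    · obtain ⟨h, hh, hZh⟩ := hex
      have hh' := hh
      rw [hH, mem_image] at hh'
      obtain ⟨s, hs, rfl⟩ := hh'
      rw [mem_filter] at hs
      have hdisj : Disjoint Y Z := by
        rw [disjoint_left]
        intro v hv hvZ
        exact (mem_sdiff.1 (hZh hvZ)).2 hv
      have hcard : (Y ∪ Z).card = Y.card + Z.card := card_union_of_disjoint hdisj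
      have h1 : (H.filter (fun h => Z ⊆ h)).card ≤ (ℬ.filter (fun s => Y ∪ Z ⊆ s)).card := by
        refine card_le_card_of_injOn (fun h => h ∪ Y) ?_ ?_
        · intro h' hh'
          rw [mem_coe, mem_filter, hH, mem_image] at hh'
          obtain ⟨⟨s', hs', rfl⟩, hZs'⟩ := hh'
          rw [mem_filter] at hs'
          rw [mem_coe, mem_filter]
          have e1 : s' \ Y ∪ Y = s' := sdiff_union_of_subset hs'.2
          show s' \ Y ∪ Y ∈ ℬ ∧ Y ∪ Z ⊆ s' \ Y ∪ Y
          rw [e1]
          refine ⟨hs'.1, union_subset hs'.2 (hZs'.trans sdiff_subset)⟩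
        · intro h1 hh1 h2 hh2 he
          rw [mem_coe, mem_filter, hH, mem_image] at hh1 hh2
          obtain ⟨⟨s1, hs1, rfl⟩, -⟩ := hh1
          obtain ⟨⟨s2, hs2, rfl⟩, -⟩ := hh2
          rw [mem_filter] at hs1 hs2
          have he' : s1 \ Y ∪ Y = s2 \ Y ∪ Y := he
          rw [sdiff_union_of_subset hs1.2, sdiff_union_of_subset hs2.2] at he'
          rw [he']
      refine h1.trans ?_
      by_contra hgt
      push Not at hgt
      have h2 := hYmax (Y ∪ Z) (by
        rw [mem_filter]
        refine ⟨mem_univ _, ?_, s, hs.1, union_subset hs.2 (hZh.trans sdiff_subset)⟩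
        rw [hcard, ← Nat.sub_sub]
        exact hgt)
      have h3 : 0 < Z.card := hZ.card_pos
      have h4 : (Y ∪ Z).card ≤ Y.card := h2
      omega
    · have h1 : H.filter (fun h => Z ⊆ h) = ∅ := by
        rw [filter_eq_empty_iff]
        intro h hh hZh
        exact hex ⟨h, hh, hZh⟩
      rw [h1, card_empty]
      exact Nat.zero_le _
  have hq := quasi H (a - Y.card) w L B₁ (by omega) (by omega) hL hB hHc hHS
    (by rw [hHcard]; exact hYbig.le)
  have hR : (univ.filter (fun R : Finset V => ∀ h ∈ H, ¬ h ⊆ R)).card ≤ θ := by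
    have h1 : 2 ^ L * (univ.filter (fun R : Finset V => ∀ h ∈ H, ¬ h ⊆ R)).card ≤ 2 ^ L * θ :=
      le_trans hq hθ
    exact Nat.le_of_mul_le_mul_left h1 (by positivity)
  -- the kernel is a member
  have hU₀ : join D (restr γ Y) ∈ F := by
    refine hF.2 _ ?_ ?_
    · refine (size_join _ _).trans ?_
      rw [size_eq (restr γ Y), supp_restr]
      omega
    · refine le_trans ?_ hR
      refine card_le_card_of_injOn (fun χ => univ.filter (fun v => χ v = γ v)) ?_ ?_
      · intro χ hχ
        rw [mem_coe, mem_filter] at hχ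
        obtain ⟨-, hag, hno⟩ := hχ
        rw [mem_coe, mem_filter]
        refine ⟨mem_univ _, fun h hh hsub => hno ?_⟩
        rw [hH, mem_image] at hh
        obtain ⟨s, hs, rfl⟩ := hh
        rw [mem_filter] at hs
        refine ⟨join D (restr γ s), (hmem s hs.1).2.2.1, ?_⟩
        intro v c hv
        rcases hD : D v with _ | d
        · have hv' : restr γ s v = some c := by
            simpa [join, hD] using hv
          rw [restr_some] at hv'
          by_cases hvY : v ∈ Y
          · refine hag v c ?_
            show (D v).or (restr γ Y v) = some c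
            rw [hD, Option.none_or, restr_some]
            exact ⟨hvY, hv'.2⟩
          · have h1 := hsub (mem_sdiff.2 ⟨hv'.1, hvY⟩)
            rw [mem_filter] at h1
            rw [h1.2, hv'.2]
        · have hv' : d = c := by
            simpa [join, hD] using hv
          refine hag v c ?_
          show (D v).or (restr γ Y v) = some c
          rw [hD, hv']
          rfl
      · intro χ _ χ' _ he
        funext v
        have he' : (univ.filter (fun v => χ v = γ v)) = univ.filter (fun v => χ' v = γ v) := he
        have h1 : (χ v = γ v) ↔ (χ' v = γ v) := by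
          have h2 : v ∈ univ.filter (fun v => χ v = γ v) ↔ v ∈ univ.filter (fun v => χ' v = γ v) := by
            rw [he']
          simpa using h2
        revert h1
        cases χ v <;> cases χ' v <;> cases γ v <;> simp
  have h1 := (hmem s₀ hs₀).2.2.2 (restr γ Y) (by
    intro v c hv
    rw [restr_some] at hv ⊢
    exact ⟨hYs₀ hv.1, hv.2⟩) hU₀
  have h2 : Y = s₀ := by
    rw [← supp_restr γ Y, h1, supp_restr]
  rw [h2, (hmem s₀ hs₀).1] at hYa
  exact lt_irrefl _ hYa

end MTQ
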