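import Pool.Agent.Lib.MTQ.MinE

/-!
# MTQ.Clos (MP_e46137_lc, theorem B*): closed families of partial colourings
(port of `MTB.Clos` by helper19 and helper15 to an arbitrary finite vertex set)
-/

namespace MTQ

open Classical Finset

variable {V : Type*} [Fintype V]

omit [Fintype V] in
theorem Sub.refl (A : PC V) : Sub A A := fun _ _ h => h

omit [Fintype V] in
theorem Sub.trans {A B C : PC V} (h : Sub A B) (h' : Sub B C) : Sub A C :=
  fun v c hv => h' v c (h v c hv)

theorem size_mono {A B : PC V} (h : Sub A B) : size A ≤ size B := by
  unfold size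
  refine card_le_card fun v hv => ?_
  rw [mem_filter] at hv ⊢
  obtain ⟨c, hc⟩ := Option.ne_none_iff_exists'.1 hv.2
  refine ⟨mem_univ _, ?_⟩
  rw [h v c hc]
  simp

theorem eq_of_sub_size {A B : PC V} (h : Sub A B) (hs : size B ≤ size A) : A = B := by
  have hsub : (univ.filter (fun v => A v ≠ none)) ⊆ (univ.filter (fun v => B v ≠ none)) := by
    intro v hv
    rw [mem_filter] at hv ⊢
    obtain ⟨c, hc⟩ := Option.ne_none_iff_exists'.1 hv.2
    refine ⟨mem_univ _, ?_⟩
    rw [h v c hc]
    simp
  have heq := eq_of_subset_of_card_le hsub hs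
  funext v
  rcases hv : A v with _ | c
  · by_contra hne
    have hmem : v ∈ (univ.filter (fun v => A v ≠ none)) := by
      rw [heq, mem_filter]
      exact ⟨mem_univ _, fun h => hne h.symm⟩
    rw [mem_filter, hv] at hmem
    exact hmem.2 rfl
  · exact (h v c hv).symm

theorem size_none : size (fun _ : V => (none : Option Bool)) = 0 := by
  unfold size
  rw [card_eq_zero, filter_eq_empty_iff]
  intro v _ h
  exact h rfl

theorem eq_none_of_size {A : PC V} (h : size A = 0) : A = fun _ => none := by
  funext v
  by_contra hv
  have h1 : v ∈ univ.filter (fun v => A v ≠ none) := mem_filter.2 ⟨mem_univ _, hv⟩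
  unfold size at h
  rw [card_eq_zero] at h
  rw [h] at h1
  exact absurd h1 (notMem_empty _)

omit [Fintype V] in
theorem sub_join_left (D A : PC V) : Sub D (join D A) := by
  intro v c hv
  simp [join, hv]

omit [Fintype V] in
theorem join_none (D : PC V) : join D (fun _ => none) = D := by
  funext v
  show (D v).or none = D v
  cases D v <;> rfl

omit [Fintype V] in
theorem none_join (A : PC V) : join (fun _ => none) A = A := by
  funext v
  rfl

omit [Fintype V] in
/-- if `D` and `A` are disjoint, `A` is a part of the union -/
theorem sub_join_right {D A : PC V} (h : ∀ v, D v ≠ none → A v = none) : Sub A (join D A) := by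
  intro v c hv
  by_cases hD : D v = none
  · simp [join, hD, hv]
  · rw [h v hD] at hv
    exact absurd hv (by simp)

omit [Fintype V] in
theorem join_sub {D A W : PC V} (hD : Sub D W) (hA : Sub A W) : Sub (join D A) W := by
  intro v c hv
  rcases hDv : D v with _ | d
  · have : A v = some c := by simpa [join, hDv] using hv
    exact hA v c this
  · have : d = c := by simpa [join, hDv] using hv
    rw [← this]
    exact hD v d hDv

namespace ClosAux

theorem size_update (U : PC V) (j : V) (hj : U j ≠ none) :
    size (Function.update U j none) + 1 = size U := by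
  unfold size
  have h1 : (univ.filter (fun i => Function.update U j none i ≠ none)) =
      (univ.filter (fun i => U i ≠ none)).erase j := by
    ext i
    rw [mem_erase, mem_filter, mem_filter]
    by_cases hi : i = j
    · subst hi
      simp
    · rw [Function.update_of_ne hi]
      simp [hi]
  have h2 : j ∈ univ.filter (fun i => U i ≠ none) := mem_filter.2 ⟨mem_univ _, hj⟩
  rw [h1, card_erase_of_mem h2]
  have := card_pos.2 ⟨j, h2⟩
  omega

/-- colour one vertex or do nothing -/
noncomputable def put (o : Option (V × Bool)) (U : PC V) : PC V :=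
  match o with
  | none => U
  | some p => Function.update U p.1 (some p.2)

end ClosAux

open ClosAux MinEAux

/-- There are at most `(2 |V| + 1) ^ w` partial colourings of size at most `w`. -/
theorem card_small (w : ℕ) :
    (univ.filter (fun U : PC V => size U ≤ w)).card ≤ (2 * Fintype.card V + 1) ^ w := by
  induction w with
  | zero =>
    rw [pow_zero, card_le_one]
    intro U hU W hW
    have h1 := (mem_filter.1 hU).2
    have h2 := (mem_filter.1 hW).2
    rw [eq_none_of_size (Nat.le_zero.1 h1), eq_none_of_size (Nat.le_zero.1 h2)]
  | succ w ih =>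
    have h1 : (univ.filter (fun U : PC V => size U ≤ w + 1)) ⊆
        ((univ : Finset (Option (V × Bool))) ×ˢ
          (univ.filter (fun U : PC V => size U ≤ w))).image (fun q => put q.1 q.2) := by
      intro U hU
      have hU' := (mem_filter.1 hU).2
      rw [mem_image]
      by_cases h0 : size U ≤ w
      · exact ⟨(none, U), mem_product.2 ⟨mem_univ _, mem_filter.2 ⟨mem_univ _, h0⟩⟩, rfl⟩
      · have h2 : ∃ j, U j ≠ none := by
          by_contra hno
          push Not at hno
          apply h0
          have h4 : size U = 0 := by
            unfold size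
            rw [card_eq_zero, filter_eq_empty_iff]
            intro j _
            simp [hno j]
          omega
        obtain ⟨j, hj⟩ := h2
        obtain ⟨x, hx⟩ := Option.ne_none_iff_exists'.1 hj
        refine ⟨(some (j, x), Function.update U j none), mem_product.2 ⟨mem_univ _,
          mem_filter.2 ⟨mem_univ _, ?_⟩⟩, ?_⟩
        · have := size_update U j hj
          show size (Function.update U j none) ≤ w
          omega
        · show Function.update (Function.update U j none) j (some x) = U
          rw [Function.update_idem, ← hx, Function.update_eq_self]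
    have h2 := (card_le_card h1).trans card_image_le
    rw [card_product] at h2
    have h3 : (univ : Finset (Option (V × Bool))).card = 2 * Fintype.card V + 1 := by
      rw [card_univ, Fintype.card_option, Fintype.card_prod, Fintype.card_bool]
      ring
    rw [h3] at h2
    rw [pow_succ, mul_comm]
    exact h2.trans (Nat.mul_le_mul_left _ ih)

/-- every family is contained in a closed one; few colourings extend a member of the new family only -/
theorem exists_closed (w θ : ℕ) (F : Finset (PC V)) (hF : ∀ U ∈ F, size U ≤ w) :
    ∃ F', F ⊆ F' ∧ Closed w θ F' ∧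
    (univ.filter (fun χ : V → Bool => Hits F' χ ∧ ¬ Hits F χ)).card ≤
      (2 * Fintype.card V + 1) ^ w * θ := by
  have hF0 : F ∈ (univ : Finset (Finset (PC V))).filter (fun F' => F ⊆ F' ∧
      (∀ U ∈ F', size U ≤ w) ∧
      (univ.filter (fun χ : V → Bool => Hits F' χ ∧ ¬ Hits F χ)).card + F.card * θ
        ≤ F'.card * θ) := by
    rw [mem_filter]
    refine ⟨mem_univ _, Subset.refl _, hF, ?_⟩
    have h0 : (univ.filter (fun χ : V → Bool => Hits F χ ∧ ¬ Hits F χ)) = ∅ := by
      rw [filter_eq_empty_iff]
      intro χ _ h
      exact h.2 h.1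
    rw [h0, card_empty, zero_add]
  obtain ⟨F', hF', hmax⟩ := exists_max_image _ (fun F' : Finset (PC V) => F'.card) ⟨F, hF0⟩
  rw [mem_filter] at hF'
  obtain ⟨-, hsub, hsz, hcard⟩ := hF'
  refine ⟨F', hsub, ⟨hsz, ?_⟩, ?_⟩
  · intro U hUw hU
    by_contra hUF
    have hins : insert U F' ∈ (univ : Finset (Finset (PC V))).filter (fun F' => F ⊆ F' ∧
        (∀ U ∈ F', size U ≤ w) ∧
        (univ.filter (fun χ : V → Bool => Hits F' χ ∧ ¬ Hits F χ)).card + F.card * θ
          ≤ F'.card * θ) := by
      rw [mem_filter]
      refine ⟨mem_univ _, hsub.trans (subset_insert _ _), ?_, ?_⟩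
      · intro W hW
        rcases mem_insert.1 hW with rfl | hW
        · exact hUw
        · exact hsz W hW
      have h1 : (univ.filter (fun χ : V → Bool => Hits (insert U F') χ ∧ ¬ Hits F χ)) ⊆
          (univ.filter (fun χ : V → Bool => Hits F' χ ∧ ¬ Hits F χ)) ∪
          (univ.filter (fun χ : V → Bool => Agree U χ ∧ ¬ Hits F' χ)) := by
        intro χ hχ
        rw [mem_filter] at hχ
        rw [mem_union, mem_filter, mem_filter]
        by_cases hh : Hits F' χ
        · exact Or.inl ⟨mem_univ _, hh, hχ.2.2⟩
        · refine Or.inr ⟨mem_univ _, ?_, hh⟩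
          obtain ⟨W, hW, hWχ⟩ := hχ.2.1
          rcases mem_insert.1 hW with rfl | hW
          · exact hWχ
          · exact absurd ⟨W, hW, hWχ⟩ hh
      have h2 := (card_le_card h1).trans (card_union_le _ _)
      rw [card_insert_of_notMem hUF, add_mul, one_mul]
      omega
    have h3 := hmax _ hins
    rw [card_insert_of_notMem hUF] at h3
    omega
  · have h4 : F'.card ≤ (2 * Fintype.card V + 1) ^ w := by
      refine le_trans (card_le_card ?_) (card_small (V := V) w)
      intro U hU
      exact mem_filter.2 ⟨mem_univ _, hsz U hU⟩
    calc _ ≤ F'.card * θ := (Nat.le_add_right _ _).trans hcard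
      _ ≤ _ := Nat.mul_le_mul_right _ h4

theorem Closed.up {w θ : ℕ} {F : Finset (PC V)} (hF : Closed w θ F) {U W : PC V}
    (hU : U ∈ F) (h : Sub U W) (hW : size W ≤ w) : W ∈ F := by
  refine hF.2 W hW ?_
  have h0 : (univ.filter (fun χ : V → Bool => Agree W χ ∧ ¬ Hits F χ)) = ∅ := by
    rw [filter_eq_empty_iff]
    rintro χ - ⟨h1, h2⟩
    exact h2 ⟨U, hU, fun j x hx => h1 j x (h j x hx)⟩
  rw [h0, card_empty]
  exact Nat.zero_le _

/-- the family of all partial colourings of size at most `w` is closed -/
theorem closed_all (w θ : ℕ) : Closed w θ (univ.filter (fun U : PC V => size U ≤ w)) :=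
  ⟨fun _ hU => (mem_filter.1 hU).2, fun U hU _ => mem_filter.2 ⟨mem_univ U, hU⟩⟩

/-- lower bound for the number of extensions of a small partial colouring -/
theorem agree_card_ge {w : ℕ} (U : PC V) (hU : size U ≤ w) :
    2 ^ (Fintype.card V - w) ≤ (univ.filter (fun χ : V → Bool => Agree U χ)).card := by
  have h1 := agree_card U
  have h2 : size U ≤ Fintype.card V := by
    unfold size
    exact (card_filter_le _ _).trans (by rw [card_univ])
  have h3 : (univ.filter (fun χ : V → Bool => Agree U χ)).card = 2 ^ (Fintype.card V - size U) := by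
    have h4 : 2 ^ Fintype.card V = 2 ^ (Fintype.card V - size U) * 2 ^ size U := by
      rw [← pow_add, Nat.sub_add_cancel h2]
    rw [h4] at h1
    exact Nat.eq_of_mul_eq_mul_right (by positivity) h1
  rw [h3]
  exact Nat.pow_le_pow_right (by norm_num) (by omega)

theorem closed_empty {w θ : ℕ} (h : θ < 2 ^ (Fintype.card V - w)) :
    Closed w θ (∅ : Finset (PC V)) := by
  refine ⟨fun U hU => absurd hU (notMem_empty _), fun U hUw hU => ?_⟩
  exfalso
  have h1 : (univ.filter (fun χ : V → Bool => Agree U χ ∧ ¬ Hits (∅ : Finset (PC V)) χ)) =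
      univ.filter (fun χ : V → Bool => Agree U χ) := by
    refine filter_congr fun χ _ => ?_
    constructor
    · exact fun h => h.1
    · intro h
      refine ⟨h, ?_⟩
      rintro ⟨W, hW, -⟩
      exact absurd hW (notMem_empty _)
  rw [h1] at hU
  have h2 := agree_card_ge U hUw
  omega

/-- A minimal extension of `D` inside a member `W`, where `D` and `W` are parts of one colouring `X`. -/
theorem exists_minExt {w θ : ℕ} {F : Finset (PC V)} (hF : Closed w θ F) {D W X : PC V}
    (hD : Sub D X) (hWX : Sub W X) (hW : W ∈ F) (hs : size D + size W ≤ w) :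
    ∃ A, MinExt F D A ∧ Sub A W := by
  set W' : PC V := fun v => if D v = none then W v else none with hW'
  have hW'W : Sub W' W := by
    intro v c hv
    have hv' : (if D v = none then W v else none) = some c := hv
    by_cases h : D v = none
    · rwa [if_pos h] at hv'
    · rw [if_neg h] at hv'
      exact absurd hv' (by simp)
  have hmem : join D W' ∈ F := by
    refine hF.up hW ?_ ((size_join D W').trans ?_)
    · intro v c hv
      show (D v).or (W' v) = some c
      rcases hDv : D v with _ | d
      · rw [Option.none_or]
        have h0 : W' v = if D v = none then W v else none := rfl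
        rw [h0, if_pos hDv, hv]
      · have h1 := hD v d hDv
        have h2 := hWX v c hv
        rw [h1] at h2
        rw [Option.some_or, h2]
    · have := size_mono hW'W
      omega
  obtain ⟨A, hA, hmin⟩ := exists_min_image
    (univ.filter (fun A : PC V => Sub A W' ∧ join D A ∈ F)) (fun A => size A)
    ⟨W', mem_filter.2 ⟨mem_univ _, Sub.refl _, hmem⟩⟩
  rw [mem_filter] at hA
  refine ⟨A, ⟨?_, hA.2.2, ?_⟩, hA.2.1.trans hW'W⟩
  · intro v hv
    by_contra hne
    obtain ⟨c, hc⟩ := Option.ne_none_iff_exists'.1 hne
    have h1 : (if D v = none then W v else none) = some c := hA.2.1 v c hc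
    rw [if_neg hv] at h1
    exact absurd h1 (by simp)
  · intro A' hA' hmem'
    exact eq_of_sub_size hA' (hmin A' (mem_filter.2 ⟨mem_univ _, hA'.trans hA.2.1, hmem'⟩))

/-- minimal extensions of nonmembers are not empty -/
theorem MinExt.size_pos {F : Finset (PC V)} {D A : PC V} (h : MinExt F D A) (hD : D ∉ F) :
    1 ≤ size A := by
  by_contra hs
  have h0 : size A = 0 := by omega
  apply hD
  have h1 := h.2.1
  rw [eq_none_of_size h0, join_none] at h1
  exact h1

/-- the size of the union with a minimal extension -/
theorem MinExt.size_join_eq {F : Finset (PC V)} {D A : PC V} (h : MinExt F D A) :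
    size (join D A) = size D + size A := by
  unfold size
  rw [← card_union_of_disjoint]
  · congr 1
    ext v
    rw [mem_union, mem_filter, mem_filter, mem_filter]
    by_cases hD : D v = none
    · simp [join, hD]
    · obtain ⟨c, hc⟩ := Option.ne_none_iff_exists'.1 hD
      simp [join, hc]
  · rw [disjoint_left]
    intro v hv hv'
    rw [mem_filter] at hv hv'
    exact hv'.2 (h.1 v hv.2)

end MTQ
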