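import Mathlib

/-!
# MTQ.Defs (MP_e46137_lc, theorem B*): partial colourings of a finite set, closed families, minimal extensions
-/

namespace MTQ

open Classical Finset

/-- partial colourings (`true`: side of the source, `false`: side of the target, `none`: uncoloured) -/
abbrev PC (V : Type*) := V → Option Bool

variable {V : Type*}

/-- the colouring `χ` extends the partial colouring `U` -/
def Agree (U : PC V) (χ : V → Bool) : Prop := ∀ v c, U v = some c → χ v = c

/-- `χ` extends a member of the family -/
def Hits (F : Finset (PC V)) (χ : V → Bool) : Prop := ∃ U ∈ F, Agree U χ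

/-- `U` is a part of `W` -/
def Sub (U W : PC V) : Prop := ∀ v c, U v = some c → W v = some c

/-- the union of two partial colourings (`D` has priority) -/
def join (D A : PC V) : PC V := fun v => (D v).or (A v)

/-- minimal extensions `A` of `D`: `A` is disjoint from `D`, the union is a member, and no proper part
of `A` has this property -/
def MinExt (F : Finset (PC V)) (D A : PC V) : Prop :=
  (∀ v, D v ≠ none → A v = none) ∧ join D A ∈ F ∧ ∀ A', Sub A' A → join D A' ∈ F → A' = A

/-- number of coloured vertices -/
noncomputable def size [Fintype V] (U : PC V) : ℕ := (univ.filter (fun v => U v ≠ none)).card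

/-- Closed families of partial colourings of size at most `w`: if at most `θ` colourings extend `U`
(of size at most `w`) and no member of `F`, then `U ∈ F`. -/
def Closed [Fintype V] (w θ : ℕ) (F : Finset (PC V)) : Prop :=
  (∀ U ∈ F, size U ≤ w) ∧
  ∀ U, size U ≤ w →
    (univ.filter (fun χ : V → Bool => Agree U χ ∧ ¬ Hits F χ)).card ≤ θ → U ∈ F

end MTQ
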